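import Pool.Agent.Helper51.LT.St
import Pool.Agent.Helper60.Rel.GFun
import Pool.Agent.Helper46.Rel.Koebe

/-!
# Project LT (MP_d6acc2_an), module KOE: Koebe lower bound for univalent functions
-/

set_option autoImplicit false

namespace Pool.Agent.Helper28.LT

open Complex MeasureTheory Set Metric Filter Topology
open scoped Real ENNReal
open Pool.Agent.Helper51.LT

theorem hKoe : StKoe := by
  intro f U z d hd hball hU hf w hw
  obtain ⟨hfd, hfi⟩ := hf
  set ρ : ℝ := min ‖w - z‖ d with hρ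
  have hρd : ρ ≤ d := min_le_right _ _
  have hρw : ρ ≤ ‖w - z‖ := min_le_left _ _
  have hρ0 : 0 ≤ ρ := le_min (norm_nonneg _) hd.le
  rcases hρ0.lt_or_eq with hρpos | hρz
  swap
  · rw [← hρz, mul_zero]
    positivity
  by_cases hf0 : deriv f z = 0
  · rw [hf0, norm_zero, zero_mul]
    positivity
  have hρC : (ρ : ℂ) ≠ 0 := by exact_mod_cast hρpos.ne'
  set c : ℂ := 1 / ((ρ : ℂ) * deriv f z) with hc
  have hc0 : c ≠ 0 := by
    rw [hc]
    exact div_ne_zero one_ne_zero (mul_ne_zero hρC hf0)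
  have hin : ∀ x ∈ ball (0 : ℂ) 1, z + ρ * x ∈ U := by
    intro x hx
    apply hball
    rw [mem_ball, dist_eq_norm, add_sub_cancel_left, norm_mul, Complex.norm_real, Real.norm_eq_abs,
      abs_of_pos hρpos]
    have hx' : ‖x‖ < 1 := mem_ball_zero_iff.1 hx
    calc ρ * ‖x‖ < ρ * 1 := mul_lt_mul_of_pos_left hx' hρpos
      _ ≤ d := by rw [mul_one]; exact hρd
  have hφ : ∀ x ∈ ball (0 : ℂ) 1, HasDerivAt (fun x : ℂ => c * (f (z + ρ * x) - f z))
      (c * (deriv f (z + ρ * x) * ρ)) x := by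
    intro x hx
    have h1 : HasDerivAt f (deriv f (z + ρ * x)) (z + ρ * x) :=
      (hfd.differentiableAt (hU.mem_nhds (hin x hx))).hasDerivAt
    have h2 : HasDerivAt (fun x : ℂ => z + ρ * x) (ρ : ℂ) x := by
      have := ((hasDerivAt_id x).const_mul (ρ : ℂ)).const_add z
      simpa using this
    have h3 := h1.comp x h2
    exact (h3.sub_const (f z)).const_mul c
  have hφinj : InjOn (fun x : ℂ => c * (f (z + ρ * x) - f z)) (ball 0 1) := by
    intro x hx y hy hxy
    have h1 : f (z + ρ * x) - f z = f (z + ρ * y) - f z := mul_left_cancel₀ hc0 hxy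
    have h2 : f (z + ρ * x) = f (z + ρ * y) := by linear_combination h1
    have h3 := hfi (hin x hx) (hin y hy) h2
    exact mul_left_cancel₀ hρC (add_left_cancel h3)
  have hmem : (0 : ℂ) ∈ ball (0 : ℂ) 1 := mem_ball_self one_pos
  have hK := Pool.Agent.Helper46.Rel.koebe_of Pool.Agent.Helper60.Rel.bieb
    (φ := fun x : ℂ => c * (f (z + ρ * x) - f z))
    (fun x hx => (hφ x hx).differentiableAt.differentiableWithinAt) hφinj (by simp)
    (by
      rw [(hφ 0 hmem).deriv, hc, mul_zero, add_zero]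
      field_simp) (w := c * (f w - f z))
    (by
      rintro ⟨x, hx, hxe⟩
      have h2 : f (z + ρ * x) - f z = f w - f z := mul_left_cancel₀ hc0 hxe
      have h3 : f (z + ρ * x) = f w := by linear_combination h2
      have h4 := hfi (hin x hx) hw h3
      have h5 : ‖w - z‖ = ρ * ‖x‖ := by
        rw [← h4, add_sub_cancel_left, norm_mul, Complex.norm_real, Real.norm_eq_abs,
          abs_of_pos hρpos]
      have hx' : ‖x‖ < 1 := mem_ball_zero_iff.1 hx
      have h6 : ρ * ‖x‖ < ρ * 1 := mul_lt_mul_of_pos_left hx' hρpos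
      rw [mul_one] at h6
      linarith)
  rw [hc, norm_mul, norm_div, norm_mul, norm_one, Complex.norm_real, Real.norm_eq_abs,
    abs_of_pos hρpos] at hK
  have hfpos : 0 < ‖deriv f z‖ := norm_pos_iff.2 hf0
  have h7 : 1 / 4 ≤ ‖f w - f z‖ / (ρ * ‖deriv f z‖) := by
    calc 1 / 4 ≤ 1 / (ρ * ‖deriv f z‖) * ‖f w - f z‖ := hK
      _ = _ := by ring
  rw [le_div_iff₀ (by positivity)] at h7
  linarith

end Pool.Agent.Helper28.LT
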